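import Pool.Agent.Helper36.FL.Filt

/-!
# Project FL, module FL-15c: morphisms `F ⟶ Y D`, injective fibrancy of `Y D`
-/

open CategoryTheory MonoidalCategory Opposite

set_option autoImplicit false

namespace Pool.Agent.Helper82.FL15

open FL

variable {n : ℕ}

/-! ### The Yoneda simplices -/

section

variable {A : Type} [SmallCategory A]

theorem yoS_res {C : SP A} {a : A} {k l : SimplexCategoryᵒᵖ} (α : k ⟶ l)
    (x : (C.obj (op a)).obj k) :
    yoS (C := C) (a := a) (k := l.unop) ((C.obj (op a)).map α x) =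
      (yoS (C := C) (a := a) (k := k.unop) x).res α.unop := by
  refine MpS.ext ?_
  funext b m s u
  refine congrArg ((C.map (Quiver.Hom.op (u : b.unop ⟶ a))).app m) ?_
  exact (sset_comp _ α s.op x).symm

theorem yoS_map {C : SP A} {a b : A} {k : SimplexCategoryᵒᵖ} (f : b ⟶ a)
    (x : (C.obj (op a)).obj k) :
    yoS (C := C) (a := b) (k := k.unop) ((C.map f.op).app k x) =
      (MpS.ofHom k.unop (repMap f)).comp (yoS (C := C) (a := a) (k := k.unop) x) := by
  refine MpS.ext ?_
  funext c m s u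
  refine (congrArg ((C.map (Quiver.Hom.op (u : c.unop ⟶ b))).app m)
    (sp_nat C f.op s.op x).symm).trans ?_
  exact (sp_comp C f.op (Quiver.Hom.op (u : c.unop ⟶ b)) _).symm

theorem yoS_comp {C C' : SP A} {a : A} {k m : SimplexCategoryᵒᵖ} (φ : MpS C C' k.unop)
    (t : m.unop ⟶ k.unop) (x : (C.obj (op a)).obj m) :
    (yoS (C := C) (a := a) (k := m.unop) x).comp (φ.res t) =
      yoS (C := C') (a := a) (k := m.unop) (φ.app (op a) m t x) := by
  refine MpS.ext ?_
  funext b l s u
  refine (φ.nat_left (Quiver.Hom.op (u : b.unop ⟶ a)) l (s ≫ t) _).trans ?_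
  refine congrArg ((C'.map (Quiver.Hom.op (u : b.unop ⟶ a))).app l) ?_
  exact φ.nat_right (op a) s.op t x

theorem yoS_rep {a b : A} {k : SimplexCategoryᵒᵖ} (f : b ⟶ a) :
    yoS (C := rep a) (a := b) (k := k.unop) (f : ((rep a).obj (op b)).obj k) =
      MpS.ofHom k.unop (repMap f) := rfl

theorem yoS_one {C : SP A} {a : A} {k : SimplexCategoryᵒᵖ} (x : (C.obj (op a)).obj k) :
    (yoS (C := C) (a := a) (k := k.unop) x).app (op a) k (𝟙 _) (𝟙 a : a ⟶ a) = x :=
  (sp_id C _).trans (sset_id _ _)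

end

/-! ### Restriction to `Θ_n` -/

/-- The restriction of a morphism `F ⟶ Y D` to `Θ_n`. -/
noncomputable def toRestr (hrep : ∀ θ : Th n, IsCat n (rep θ)) {F : PSh n} {D : SP (Gn n)}
    (φ : PSh.Hom F (YD D)) : F.restr hrep ⟶ ND D where
  app a := φ.app ⟨rep a.unop, hrep _⟩
  naturality a b f := by
    ext k x
    exact φ.act (C := ⟨rep b.unop, hrep _⟩) (C' := ⟨rep a.unop, hrep _⟩)
      (MpS.ofHom k.unop (repMap f.unop)) x

/-- The restriction of a morphism of presheaves to `Θ_n`. -/
noncomputable def restrHom (hrep : ∀ θ : Th n, IsCat n (rep θ)) {F G : PSh n}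
    (φ : PSh.Hom F G) : F.restr hrep ⟶ G.restr hrep where
  app a := φ.app ⟨rep a.unop, hrep _⟩
  naturality a b f := by
    ext k x
    exact φ.act (C := ⟨rep b.unop, hrep _⟩) (C' := ⟨rep a.unop, hrep _⟩)
      (MpS.ofHom k.unop (repMap f.unop)) x

/-- Composition of morphisms of presheaves. -/
def homComp {F G H : PSh n} (φ : PSh.Hom F G) (ψ : PSh.Hom G H) : PSh.Hom F H where
  app C := φ.app C ≫ ψ.app C
  act {C _} k χ x := (congrArg ((ψ.app C).app k) (φ.act χ x)).trans (ψ.act χ _)

/-- The formula for a morphism in terms of its restriction. -/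
theorem formula (hrep : ∀ θ : Th n, IsCat n (rep θ)) {F : PSh n} {D : SP (Gn n)}
    (φ : PSh.Hom F (YD D)) (C : CatN n) (k : SimplexCategoryᵒᵖ) (x : (F.obj C).obj k)
    (g : (Gn n)ᵒᵖ) (m : SimplexCategoryᵒᵖ) (t : m.unop ⟶ k.unop)
    (c : (C.1.obj (op ((tower n).obj g.unop))).obj m) :
    ((φ.app C).app k x : MpS (filt C.1) D k.unop).app g m t c =
      (((toRestr hrep φ).app (op ((tower n).obj g.unop))).app m
        (F.act (C := ⟨rep _, hrep _⟩) (C' := C) (yoS c) ((F.obj C).map t.op x)) :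
          MpS (filt (rep _)) D m.unop).app g m (𝟙 _) (𝟙 ((tower n).obj g.unop)) := by
  have h1 := φ.act (C := ⟨rep _, hrep _⟩) (C' := C)
    (yoS (C := C.1) (a := (tower n).obj g.unop) (k := m.unop) c) ((F.obj C).map t.op x)
  have h2 : (φ.app C).app m ((F.obj C).map t.op x) =
      MpS.res t ((φ.app C).app k x : MpS (filt C.1) D k.unop) := sset_nat (φ.app C) t.op x
  refine Eq.trans ?_ (congrArg (fun w : MpS (filt (rep ((tower n).obj g.unop))) D m.unop =>
    w.app g m (𝟙 _) (𝟙 ((tower n).obj g.unop))) h1.symm)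
  refine Eq.trans ?_ (congrArg (fun w : MpS (filt C.1) D m.unop =>
    ((YD D).act (C := ⟨rep _, hrep _⟩) (C' := C)
      (yoS (C := C.1) (a := (tower n).obj g.unop) (k := m.unop) c) w :
        MpS (filt (rep ((tower n).obj g.unop))) D m.unop).app g m (𝟙 _)
          (𝟙 ((tower n).obj g.unop))) h2.symm)
  show _ = ((φ.app C).app k x : MpS (filt C.1) D k.unop).app g m (𝟙 _ ≫ t)
    ((yoS (C := C.1) (a := (tower n).obj g.unop) (k := m.unop) c).app
      (op ((tower n).obj g.unop)) m (𝟙 _) (𝟙 ((tower n).obj g.unop)))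
  rw [yoS_one, Category.id_comp]

/-- The simplex given by the formula. -/
noncomputable def extS (hrep : ∀ θ : Th n, IsCat n (rep θ)) {F : PSh n} {D : SP (Gn n)}
    (χ : F.restr hrep ⟶ ND D) (C : CatN n) (k : SimplexCategoryᵒᵖ) (x : (F.obj C).obj k) :
    MpS (filt C.1) D k.unop where
  app g m t c := ((χ.app (op ((tower n).obj g.unop))).app m
        (F.act (C := ⟨rep _, hrep _⟩) (C' := C)
          (yoS (C := C.1) (a := (tower n).obj g.unop) (k := m.unop) c) ((F.obj C).map t.op x)) :
          MpS (filt (rep _)) D m.unop).app g m (𝟙 _) (𝟙 ((tower n).obj g.unop))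
  nat_left {g g'} f m t c := by
    have h1 := yoS_map (C := C.1) (k := m) ((tower n).map f.unop) c
    have h2 := F.act_comp (C := ⟨rep _, hrep _⟩) (C' := ⟨rep _, hrep _⟩) (C'' := C)
      (MpS.ofHom m.unop (repMap ((tower n).map f.unop)))
      (yoS (C := C.1) (a := (tower n).obj g.unop) (k := m.unop) c) ((F.obj C).map t.op x)
    have h3 : F.act (C := ⟨rep _, hrep _⟩) (C' := C) (yoS (C := C.1) (a := (tower n).obj g'.unop)
        (k := m.unop) ((C.1.map ((tower n).map f.unop).op).app m c)) ((F.obj C).map t.op x) =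
        ((F.restr hrep).map ((tower n).map f.unop).op).app m
          (F.act (C := ⟨rep _, hrep _⟩) (C' := C)
            (yoS (C := C.1) (a := (tower n).obj g.unop) (k := m.unop) c)
            ((F.obj C).map t.op x)) :=
      (congrArg (fun w => F.act (C := ⟨rep _, hrep _⟩) (C' := C) w ((F.obj C).map t.op x)) h1).trans
        h2
    have h4 := hom_nat χ ((tower n).map f.unop).op (k := m)
      (F.act (C := ⟨rep _, hrep _⟩) (C' := C)
            (yoS (C := C.1) (a := (tower n).obj g.unop) (k := m.unop) c)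
            ((F.obj C).map t.op x))
    refine (congrArg (fun w => (((χ.app (op ((tower n).obj g'.unop))).app m w :
      MpS (filt (rep _)) D m.unop)).app g' m (𝟙 _) (𝟙 ((tower n).obj g'.unop))) h3).trans ?_
    refine (congrArg (fun w : MpS (filt (rep ((tower n).obj g'.unop))) D m.unop =>
      w.app g' m (𝟙 _) (𝟙 ((tower n).obj g'.unop))) h4).trans ?_
    refine Eq.trans ?_ (MpS.nat_left ((χ.app (op ((tower n).obj g.unop))).app m
        (F.act (C := ⟨rep _, hrep _⟩) (C' := C)
          (yoS (C := C.1) (a := (tower n).obj g.unop) (k := m.unop) c) ((F.obj C).map t.op x)) :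
          MpS (filt (rep _)) D m.unop) f m (𝟙 _) (𝟙 ((tower n).obj g.unop)))
    refine congrArg (MpS.app ((χ.app (op ((tower n).obj g.unop))).app m
        (F.act (C := ⟨rep _, hrep _⟩) (C' := C)
          (yoS (C := C.1) (a := (tower n).obj g.unop) (k := m.unop) c) ((F.obj C).map t.op x)) :
          MpS (filt (rep _)) D m.unop) g' m (𝟙 _)) ?_
    exact (Category.id_comp ((tower n).map f.unop)).trans
      (Category.comp_id ((tower n).map f.unop)).symm
  nat_right g {m l} α s c := by
    have h1 := yoS_res (C := C.1) α c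
    have h2 := F.act_nat (C := ⟨rep _, hrep _⟩) (C' := C) α
      (yoS (C := C.1) (a := (tower n).obj g.unop) (k := m.unop) c) ((F.obj C).map s.op x)
    have h3 : F.act (C := ⟨rep _, hrep _⟩) (C' := C) (yoS (C := C.1) (a := (tower n).obj g.unop)
        (k := l.unop) ((C.1.obj _).map α c)) ((F.obj C).map (α.unop ≫ s).op x) =
        (F.obj ⟨rep _, hrep _⟩).map α (F.act (C := ⟨rep _, hrep _⟩) (C' := C)
            (yoS (C := C.1) (a := (tower n).obj g.unop) (k := m.unop) c)
            ((F.obj C).map s.op x)) :=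
      (congrArg₂ (F.act (C := ⟨rep _, hrep _⟩) (C' := C)) h1
        (sset_comp (F.obj C) s.op α x)).trans h2
    have h4 := hom_natk χ α (F.act (C := ⟨rep _, hrep _⟩) (C' := C)
            (yoS (C := C.1) (a := (tower n).obj g.unop) (k := m.unop) c)
            ((F.obj C).map s.op x))
    refine (congrArg (fun w => (((χ.app (op ((tower n).obj g.unop))).app l w :
      MpS (filt (rep _)) D l.unop)).app g l (𝟙 _) (𝟙 ((tower n).obj g.unop))) h3).trans ?_
    refine (congrArg (fun w : MpS (filt (rep ((tower n).obj g.unop))) D l.unop =>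
      w.app g l (𝟙 _) (𝟙 ((tower n).obj g.unop))) h4).trans ?_
    refine Eq.trans ?_ (MpS.nat_right ((χ.app (op ((tower n).obj g.unop))).app m
        (F.act (C := ⟨rep _, hrep _⟩) (C' := C)
          (yoS (C := C.1) (a := (tower n).obj g.unop) (k := m.unop) c) ((F.obj C).map s.op x)) :
          MpS (filt (rep _)) D m.unop) g α (𝟙 _) (𝟙 ((tower n).obj g.unop)))
    refine congrArg (fun w => MpS.app ((χ.app (op ((tower n).obj g.unop))).app m
        (F.act (C := ⟨rep _, hrep _⟩) (C' := C)
          (yoS (C := C.1) (a := (tower n).obj g.unop) (k := m.unop) c) ((F.obj C).map s.op x)) :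
          MpS (filt (rep _)) D m.unop) g l w (𝟙 ((tower n).obj g.unop))) ?_
    exact (Category.id_comp _).trans (Category.comp_id _).symm

/-- The extension of a morphism defined on `Θ_n`. -/
noncomputable def ofRestr (hrep : ∀ θ : Th n, IsCat n (rep θ)) {F : PSh n} {D : SP (Gn n)}
    (χ : F.restr hrep ⟶ ND D) : PSh.Hom F (YD D) where
  app C :=
    { app := fun k => ↾ fun x => extS hrep χ C k x
      naturality := fun k l α => by
        ext x
        refine MpS.ext ?_
        funext g m t c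
        refine congrArg (fun w => (((χ.app (op ((tower n).obj g.unop))).app m
          (F.act (C := ⟨rep _, hrep _⟩) (C' := C)
            (yoS (C := C.1) (a := (tower n).obj g.unop) (k := m.unop) c) w) :
          MpS (filt (rep _)) D m.unop)).app g m (𝟙 _) (𝟙 ((tower n).obj g.unop))) ?_
        exact (sset_comp (F.obj C) α t.op x).symm }
  act {C C'} k φ x := by
    refine MpS.ext ?_
    funext g m t c
    have h1 := F.act_nat (C := C) (C' := C') t.op φ x
    have h2 := F.act_comp (C := ⟨rep _, hrep _⟩) (C' := C) (C'' := C')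
      (yoS (C := C.1) (a := (tower n).obj g.unop) (k := m.unop) c) (φ.res t)
      ((F.obj C').map t.op x)
    have h3 := yoS_comp (C := C.1) (C' := C'.1) φ t (a := (tower n).obj g.unop) c
    refine congrArg (fun w => (((χ.app (op ((tower n).obj g.unop))).app m w :
      MpS (filt (rep _)) D m.unop)).app g m (𝟙 _) (𝟙 ((tower n).obj g.unop))) ?_
    refine (congrArg (F.act (C := ⟨rep _, hrep _⟩) (C' := C)
      (yoS (C := C.1) (a := (tower n).obj g.unop) (k := m.unop) c)) h1.symm).trans ?_
    refine h2.symm.trans ?_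
    exact congrArg (fun w => F.act (C := ⟨rep _, hrep _⟩) (C' := C') w
      ((F.obj C').map t.op x)) h3

theorem toRestr_ofRestr (hrep : ∀ θ : Th n, IsCat n (rep θ)) {F : PSh n} {D : SP (Gn n)}
    (χ : F.restr hrep ⟶ ND D) : toRestr hrep (ofRestr hrep χ) = χ := by
  ext a k x
  refine MpS.ext ?_
  funext g m t c
  have h2 := hom_nat χ (Quiver.Hom.op (c : (tower n).obj g.unop ⟶ a.unop)) (k := m)
    (((F.restr hrep).obj a).map t.op x)
  have h3 := hom_natk χ t.op x
  refine (congrArg (fun w : MpS (filt (rep ((tower n).obj g.unop))) D m.unop =>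
      w.app g m (𝟙 _) (𝟙 ((tower n).obj g.unop))) h2).trans ?_
  refine (congrArg (fun w : MpS (filt (rep a.unop)) D m.unop =>
      (((ND D).map (Quiver.Hom.op (c : (tower n).obj g.unop ⟶ a.unop))).app m w :
        MpS (filt (rep ((tower n).obj g.unop))) D m.unop).app g m (𝟙 _)
          (𝟙 ((tower n).obj g.unop))) h3).trans ?_
  have e1 : 𝟙 m.unop ≫ t = t := Category.id_comp t
  have e2 : 𝟙 ((tower n).obj g.unop) ≫ (c : (tower n).obj g.unop ⟶ a.unop) = c :=
    Category.id_comp _
  exact congrArg₂ (fun (t : m.unop ⟶ k.unop) (c : (tower n).obj g.unop ⟶ a.unop) =>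
    ((χ.app a).app k x : MpS (filt (rep a.unop)) D k.unop).app g m t c) e1 e2

theorem hom_ext {F G : PSh n} {φ ψ : PSh.Hom F G} (h : ∀ C, φ.app C = ψ.app C) : φ = ψ := by
  obtain ⟨a, _⟩ := φ
  obtain ⟨b, _⟩ := ψ
  have : a = b := funext h
  subst this
  rfl

theorem toRestr_injective (hrep : ∀ θ : Th n, IsCat n (rep θ)) {F : PSh n} {D : SP (Gn n)}
    {φ ψ : PSh.Hom F (YD D)} (h : toRestr hrep φ = toRestr hrep ψ) : φ = ψ := by
  refine hom_ext fun C => ?_
  ext k x
  refine MpS.ext ?_
  funext g m t c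
  refine (formula hrep φ C k x g m t c).trans (Eq.trans ?_ (formula hrep ψ C k x g m t c).symm)
  rw [h]

/-- Morphisms `F ⟶ Y D` are morphisms `F|Θ_n ⟶ N D`. -/
theorem exists_YDequiv (hrep : ∀ θ : Th n, IsCat n (rep θ)) (F : PSh n) (D : SP (Gn n)) :
    ∃ e : PSh.Hom F (YD D) ≃ (F.restr hrep ⟶ ND D),
      (∀ (φ : PSh.Hom F (YD D)) (a : (Th n)ᵒᵖ), (e φ).app a = φ.app ⟨rep a.unop, hrep _⟩) ∧
      (∀ (φ : PSh.Hom F (YD D)) (C : CatN n) (k : SimplexCategoryᵒᵖ) (x : (F.obj C).obj k)
        (g : (Gn n)ᵒᵖ) (m : SimplexCategoryᵒᵖ) (t : m.unop ⟶ k.unop)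
        (c : (C.1.obj (op ((tower n).obj g.unop))).obj m),
        ((φ.app C).app k x : MpS (filt C.1) D k.unop).app g m t c =
          (((e φ).app (op ((tower n).obj g.unop))).app m
            (F.act (C := ⟨rep _, hrep _⟩) (C' := C) (yoS c) ((F.obj C).map t.op x)) :
              MpS (filt (rep _)) D m.unop).app g m (𝟙 _) (𝟙 ((tower n).obj g.unop))) := by
  refine ⟨⟨toRestr hrep, ofRestr hrep, fun φ => toRestr_injective hrep ?_,
    toRestr_ofRestr hrep⟩, fun φ a => rfl, fun φ C k x g m t c => formula hrep φ C k x g m t c⟩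
  exact toRestr_ofRestr hrep _

theorem YD_injFib (hrep : ∀ θ : Th n, IsCat n (rep θ)) (D : SP (Gn n)) (hD : InjFib D) :
    (YD D).InjFib := by
  intro F F' i hm hw f
  obtain ⟨g, hg⟩ := Pool.Agent.Helper36.FL.ND_injFib hD (restrHom hrep i) ⟨fun a => hm _, fun a => hw _⟩
    (toRestr hrep f)
  refine ⟨ofRestr hrep g, fun C => ?_⟩
  have h1 : homComp i (ofRestr hrep g) = f := by
    apply toRestr_injective hrep
    rw [← hg]
    have h2 : toRestr hrep (homComp i (ofRestr hrep g)) =
        restrHom hrep i ≫ toRestr hrep (ofRestr hrep g) := rfl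
    rw [h2, toRestr_ofRestr]
  rw [← h1]
  rfl

end Pool.Agent.Helper82.FL15
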