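import Pool.Agent.Helper58.FL.Tools

/-!
# Project FL, module FL-11: the representable presheaves on `Θ_n` are sheaves for the Segal
sieves
-/

open CategoryTheory MonoidalCategory Opposite

set_option autoImplicit false

namespace Pool.Agent.Helper82.FL11

open FL

/-! ### Translation to compatible families -/

section Trans

variable {A : Type} [SmallCategory A]

/-- The presheaf represented by `η` is a sheaf for the sieve `S`. -/
def ShF {θ : A} (S : Sieve θ) (η : A) : Prop :=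
  ∀ x : (∀ (ζ : A) (u : ζ ⟶ θ), S.arrows u → (ζ ⟶ η)),
    (∀ (ζ ζ' : A) (v : ζ' ⟶ ζ) (u : ζ ⟶ θ) (hu : S.arrows u) (hu' : S.arrows (v ≫ u)),
      x ζ' (v ≫ u) hu' = v ≫ x ζ u hu) →
    ∃! t : θ ⟶ η, ∀ (ζ : A) (u : ζ ⟶ θ) (hu : S.arrows u), u ≫ t = x ζ u hu

/-- The map `k ⟶ [0]`. -/
def toZero (k : SimplexCategoryᵒᵖ) : op (SimplexCategory.mk 0) ⟶ k :=
  (SimplexCategory.const k.unop (SimplexCategory.mk 0) 0).op

/-- A map of discrete presheaves is given by the same formula in all degrees. -/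
theorem disc_app_eq {F G : Aᵒᵖ ⥤ Type} (g : disc F ⟶ disc G) (a : Aᵒᵖ)
    (k : SimplexCategoryᵒᵖ) (x : F.obj a) :
    (g.app a).app k x = (g.app a).app (op (SimplexCategory.mk 0)) x :=
  hom_natk g (a := a) (toZero k) x

/-- The map of sheaves of sets underlying a map of discrete presheaves. -/
def undisc {F G : Aᵒᵖ ⥤ Type} (g : disc F ⟶ disc G) : F ⟶ G where
  app a := (g.app a).app (op (SimplexCategory.mk 0))
  naturality a b f := by
    ext x
    exact hom_nat g f (k := op (SimplexCategory.mk 0)) x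

theorem discMap_undisc {F G : Aᵒᵖ ⥤ Type} (g : disc F ⟶ disc G) : discMap (undisc g) = g := by
  ext a k x
  exact (disc_app_eq g a k x).symm

theorem bij_of_shF {θ η : A} {S : Sieve θ} (h : ShF S η) :
    Function.Bijective fun g : rep θ ⟶ rep η => sieveIncl S ≫ g := by
  have hval : ∀ (g : rep θ ⟶ rep η) (a : Aᵒᵖ) (k : SimplexCategoryᵒᵖ) (u : a.unop ⟶ θ),
      (g.app a).app k u = (u ≫ ((g.app (op θ)).app (op (SimplexCategory.mk 0)) (𝟙 θ) : θ ⟶ η) :
        a.unop ⟶ η) := by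
    intro g a k u
    refine (disc_app_eq g a k u).trans ?_
    have h1 := hom_nat g u.op (k := op (SimplexCategory.mk 0)) (𝟙 θ : θ ⟶ θ)
    refine Eq.trans ?_ h1
    congr 1
    exact (Category.comp_id u).symm
  constructor
  · intro g g' hg
    have hx : ∀ (ζ : A) (u : ζ ⟶ θ) (hu : S.arrows u),
        (u ≫ ((g.app (op θ)).app (op (SimplexCategory.mk 0)) (𝟙 θ) : θ ⟶ η) : ζ ⟶ η) =
        (u ≫ ((g'.app (op θ)).app (op (SimplexCategory.mk 0)) (𝟙 θ) : θ ⟶ η) : ζ ⟶ η) := by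
      intro ζ u hu
      rw [← hval g (op ζ) (op (SimplexCategory.mk 0)) u,
        ← hval g' (op ζ) (op (SimplexCategory.mk 0)) u]
      have h2 := NatTrans.congr_app (NatTrans.congr_app hg (op ζ)) (op (SimplexCategory.mk 0))
      exact ConcreteCategory.congr_hom h2 (⟨u, hu⟩ : S.functor.obj (op ζ))
    obtain ⟨t, _, ht⟩ := h (fun ζ u _ =>
      (u ≫ ((g.app (op θ)).app (op (SimplexCategory.mk 0)) (𝟙 θ) : θ ⟶ η) : ζ ⟶ η))
      (fun ζ ζ' v u _ _ => Category.assoc v u _)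
    have e1 := ht _ (fun ζ u hu => rfl)
    have e2 := ht ((g'.app (op θ)).app (op (SimplexCategory.mk 0)) (𝟙 θ) : θ ⟶ η)
      (fun ζ u hu => (hx ζ u hu).symm)
    ext a k u
    refine (hval g a k u).trans (Eq.trans ?_ (hval g' a k u).symm)
    exact congrArg (fun w : θ ⟶ η => (u ≫ w : a.unop ⟶ η)) (e1.trans e2.symm)
  · intro f
    obtain ⟨t, ht, _⟩ := h (fun ζ u hu =>
        ((f.app (op ζ)).app (op (SimplexCategory.mk 0)) (⟨u, hu⟩ : S.functor.obj (op ζ)) : ζ ⟶ η))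
      (fun ζ ζ' v u hu hu' =>
        hom_nat f v.op (k := op (SimplexCategory.mk 0)) (⟨u, hu⟩ : S.functor.obj (op ζ)))
    refine ⟨repMap t, ?_⟩
    ext a k u
    refine Eq.trans ?_ (disc_app_eq f a k u).symm
    exact ht a.unop u.1 u.2

end Trans

/-! ### Vertices, edges and suspensions in the wreath product -/

section Wreath

variable {C : Type} [SmallCategory C]

/-- The vertex `v` of `θ`. -/
def vert (θ : Wr C) (v : Fin (θ.len + 1)) : (Wr.pt : Wr C) ⟶ θ :=
  ({ f := ⟨fun _ => v, fun _ _ _ => le_refl _⟩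
     g := fun (i : Fin 0) _ _ => i.elim0 } : Wr.Hom (⟨0, Fin.elim0⟩ : Wr C) θ)

theorem vert_f (θ : Wr C) (v : Fin (θ.len + 1)) (t : Fin 1) :
    Wr.Hom.f (vert θ v) t = v := rfl

theorem vert_comp {θ η : Wr C} (v : Fin (θ.len + 1)) (φ : θ ⟶ η) :
    vert θ v ≫ φ = vert η (Wr.Hom.f φ v) :=
  Wr.hom_ext' (by rfl) fun (i : Fin 0) _ _ _ => i.elim0

theorem fin2_cases (t : Fin 2) : t = 0 ∨ t = 1 := by
  omega

/-- The monotone map `[1] → [b]` with values `p ≤ q`. -/
def pair {b : ℕ} (p q : Fin (b + 1)) (h : p ≤ q) : Fin 2 →o Fin (b + 1) where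
  toFun t := if t = 0 then p else q
  monotone' := by
    intro s t hst
    by_cases hs : s = 0
    · by_cases ht : t = 0
      · simp [hs, ht]
      · simpa [hs, ht] using h
    · have ht : t ≠ 0 := by
        intro ht
        apply hs
        rw [ht] at hst
        exact le_antisymm hst (Fin.zero_le _)
      simp [hs, ht]

theorem pair_zero {b : ℕ} (p q : Fin (b + 1)) (h : p ≤ q) : pair p q h 0 = p := rfl
theorem pair_one {b : ℕ} (p q : Fin (b + 1)) (h : p ≤ q) : pair p q h 1 = q := rfl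

theorem castSucc_le_succ' {n : ℕ} (i : Fin n) : i.castSucc ≤ i.succ := by
  rw [Fin.le_def]; simp

theorem jump_pair {n : ℕ} {i j : Fin n} {a : Fin 1}
    (h : Jump (pair i.castSucc i.succ (castSucc_le_succ' i)) a j) : i = j := by
  obtain ⟨h1, h2⟩ := h
  have ha : a = 0 := Subsingleton.elim _ _
  subst ha
  have h1' : i.castSucc ≤ j.castSucc := h1
  have h2' : j.succ ≤ i.succ := h2
  rw [Fin.le_def] at h1' h2'
  simp at h1' h2'
  exact Fin.ext (by omega)

theorem jump_pair_self {n : ℕ} (i : Fin n) :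
    Jump (pair i.castSucc i.succ (castSucc_le_succ' i)) 0 i :=
  ⟨le_refl _, le_refl _⟩

/-- The `i`-th edge `[1](θ_i) ⟶ θ`. -/
def edge (θ : Wr C) (i : Fin θ.len) : (⟨1, fun _ => θ.obj i⟩ : Wr C) ⟶ θ :=
  ({ f := pair i.castSucc i.succ (castSucc_le_succ' i)
     g := fun _ _ h => eqToHom (congrArg θ.obj (jump_pair h)) } :
    Wr.Hom (⟨1, fun _ => θ.obj i⟩ : Wr C) θ)

theorem edge_f (θ : Wr C) (i : Fin θ.len) :
    Wr.Hom.f (edge θ i) = pair i.castSucc i.succ (castSucc_le_succ' i) := rfl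

theorem edge_jump (θ : Wr C) (i : Fin θ.len) : Jump (Wr.Hom.f (edge θ i)) (0 : Fin 1) i :=
  jump_pair_self i

theorem edge_g (θ : Wr C) (i : Fin θ.len) (h : Jump (Wr.Hom.f (edge θ i)) (0 : Fin 1) i) :
    Wr.Hom.g (edge θ i) (0 : Fin 1) i h = 𝟙 (θ.obj i) := rfl

/-- The component of `φ` seen on the `i`-th edge. -/
theorem edge_comp_g {θ η : Wr C} (φ : θ ⟶ η) (i : Fin θ.len) (j : Fin η.len)
    (h : Jump (Wr.Hom.f φ) i j) :
    Wr.Hom.g (edge θ i ≫ φ) (0 : Fin 1) j ((edge_jump θ i).comp h) = Wr.Hom.g φ i j h := by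
  refine (Wr.comp_g (edge θ i) φ (edge_jump θ i) h).trans ?_
  exact Category.id_comp _

/-- The suspension `[1](c) ⟶ [1](d)` of a morphism. -/
def sus {c d : C} (u : c ⟶ d) : (⟨1, fun _ => c⟩ : Wr C) ⟶ ⟨1, fun _ => d⟩ :=
  Wr.ofComp (X := fun _ : Fin 1 => c) (Y := fun _ : Fin 1 => d) fun _ => u

theorem sus_jump {c d : C} (u : c ⟶ d) : Jump (Wr.Hom.f (sus u)) (0 : Fin 1) (0 : Fin 1) :=
  jump_id.mpr rfl

theorem sus_g {c d : C} (u : c ⟶ d) (h : Jump (Wr.Hom.f (sus u)) (0 : Fin 1) (0 : Fin 1)) :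
    Wr.Hom.g (sus u) (0 : Fin 1) (0 : Fin 1) h = u := by
  exact Wr.ofComp_g (X := fun _ : Fin 1 => c) (Y := fun _ : Fin 1 => d) (fun _ => u) 0 h

theorem sus_comp_f {c d : C} (u : c ⟶ d) {η : Wr C} (φ : (⟨1, fun _ => d⟩ : Wr C) ⟶ η) :
    Wr.Hom.f (sus u ≫ φ) = Wr.Hom.f φ := by
  rfl

theorem sus_comp_g {c d : C} (u : c ⟶ d) {η : Wr C} (φ : (⟨1, fun _ => d⟩ : Wr C) ⟶ η)
    (j : Fin η.len) (h : Jump (Wr.Hom.f φ) (0 : Fin 1) j) :
    Wr.Hom.g (sus u ≫ φ) (0 : Fin 1) j h = u ≫ Wr.Hom.g φ (0 : Fin 1) j h := by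
  refine (Wr.comp_g (sus u) φ (sus_jump u) h).trans ?_
  rw [sus_g]

theorem sus_sus {b c d : C} (v : b ⟶ c) (u : c ⟶ d) : sus (v ≫ u) = sus v ≫ sus u := by
  refine Wr.hom_ext' rfl fun i j h h' => ?_
  obtain rfl : i = (0 : Fin 1) := Subsingleton.elim _ _
  obtain rfl : j = (0 : Fin 1) := Subsingleton.elim _ _
  refine (sus_g _ _).trans (Eq.trans ?_ (sus_comp_g v (sus u) 0 (sus_jump u)).symm)
  rw [sus_g]

/-- If `φ` maps the `i`-th edge to the `k`-th edge of the target, it does so by the suspension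
of its component. -/
theorem edge_comp_eq {ζ θ : Wr C} (φ : ζ ⟶ θ) (a : Fin ζ.len) (i : Fin θ.len)
    (h : Jump (Wr.Hom.f φ) a i) (h0 : Wr.Hom.f φ a.castSucc = i.castSucc)
    (h1 : Wr.Hom.f φ a.succ = i.succ) :
    edge ζ a ≫ φ = sus (Wr.Hom.g φ a i h) ≫ edge θ i := by
  have hf : Wr.Hom.f (edge ζ a ≫ φ) = Wr.Hom.f (sus (Wr.Hom.g φ a i h) ≫ edge θ i) := by
    ext t
    refine congrArg Fin.val ?_
    show Wr.Hom.f φ (pair a.castSucc a.succ (castSucc_le_succ' a) t) =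
      pair i.castSucc i.succ (castSucc_le_succ' i) t
    have ht : t = (0 : Fin 2) ∨ t = (1 : Fin 2) := fin2_cases t
    rcases ht with ht | ht
    · rw [ht]
      exact h0
    · rw [ht]
      exact h1
  refine Wr.hom_ext' hf fun b j hb hb' => ?_
  obtain rfl : b = (0 : Fin 1) := Subsingleton.elim _ _
  obtain rfl : i = j := jump_pair (a := 0) hb'
  refine (edge_comp_g φ a i h).trans ?_
  refine Eq.trans ?_ (sus_comp_g (Wr.Hom.g φ a i h) (edge θ i) i (edge_jump θ i)).symm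
  rw [edge_g]
  exact (Category.comp_id _).symm

/-- The spine is a covering sieve for the representable presheaves. -/
theorem spine_shF (θ η : Wr C) : ShF (spine θ) η := by
  intro x hx
  have hvert : ∀ v, (spine θ).arrows (vert θ v) := fun v => Or.inl ⟨v, fun _ => rfl⟩
  have hedge : ∀ i, (spine θ).arrows (edge θ i) := fun i => Or.inr ⟨i, fun t => by
    rw [edge_f]
    by_cases ht : t = (0 : Fin 2)
    · left; rw [ht]; rfl
    · right
      exact if_neg ht⟩
  -- the values on vertices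
  let F : Fin (θ.len + 1) → Fin (η.len + 1) := fun v =>
    Wr.Hom.f (x _ (vert θ v) (hvert v)) (0 : Fin 1)
  have hF : ∀ (ζ : Wr C) (φ : ζ ⟶ θ) (hφ : (spine θ).arrows φ) (s : Fin (ζ.len + 1)),
      Wr.Hom.f (x ζ φ hφ) s = F (Wr.Hom.f φ s) := by
    intro ζ φ hφ s
    have h1 : (spine θ).arrows (vert ζ s ≫ φ) := (spine θ).downward_closed hφ _
    have h2 := hx ζ _ (vert ζ s) φ hφ h1
    have h3 : x _ (vert ζ s ≫ φ) h1 = x _ (vert θ (Wr.Hom.f φ s)) (hvert _) := by
      congr 1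
      exact vert_comp s φ
    rw [h3, vert_comp s (x ζ φ hφ)] at h2
    have h4 := congrArg (fun w => Wr.Hom.f w (0 : Fin 1)) h2
    exact h4.symm
  have hmono : Monotone F := by
    rw [Fin.monotone_iff_le_succ]
    intro i
    have h0 := hF _ (edge θ i) (hedge i) (0 : Fin 2)
    have h1 := hF _ (edge θ i) (hedge i) (1 : Fin 2)
    rw [edge_f] at h0 h1
    refine (le_of_eq h0.symm).trans (le_trans ?_ (le_of_eq h1))
    exact (Wr.Hom.f (x _ (edge θ i) (hedge i))).monotone (Fin.zero_le _)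
  have hjump : ∀ (i : Fin θ.len) (j : Fin η.len), Jump (⟨F, hmono⟩ : _ →o _) i j →
      Jump (Wr.Hom.f (x _ (edge θ i) (hedge i))) (0 : Fin 1) j := by
    intro i j h
    constructor
    · exact (le_of_eq (hF _ (edge θ i) (hedge i) (0 : Fin 2))).trans h.1
    · exact h.2.trans (le_of_eq (hF _ (edge θ i) (hedge i) (1 : Fin 2)).symm)
  let t : θ ⟶ η := ({ f := ⟨F, hmono⟩
                      g := fun i j h => Wr.Hom.g (x _ (edge θ i) (hedge i)) (0 : Fin 1) j
                        (hjump i j h) } : Wr.Hom θ η)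
  refine ⟨t, ?_, ?_⟩
  · intro ζ φ hφ
    have hf : Wr.Hom.f (φ ≫ t) = Wr.Hom.f (x ζ φ hφ) := by
      ext s
      exact congrArg Fin.val (hF ζ φ hφ s).symm
    refine Wr.hom_ext' hf fun a j h h' => ?_
    obtain ⟨i, hi, hj⟩ := Jump.split (f := Wr.Hom.f φ) (g := Wr.Hom.f t) h
    refine (Wr.comp_g φ t hi hj).trans ?_
    -- the edge `a` is mapped onto the edge `i`
    have hends : Wr.Hom.f φ a.castSucc = i.castSucc ∧ Wr.Hom.f φ a.succ = i.succ := by
      rcases hφ with ⟨v, hv⟩ | ⟨i', hi'⟩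
      · exfalso
        have h1 := hi.1
        have h2 := hi.2
        rw [hv] at h1 h2
        have h3 := h2.trans h1
        rw [Fin.le_def] at h3
        simp at h3
      · have h1 := hi.1
        have h2 := hi.2
        rw [Fin.le_def] at h1 h2
        rcases hi' a.castSucc with e | e <;> rcases hi' a.succ with e' | e' <;>
          rw [e] at h1 ⊢ <;> rw [e'] at h2 ⊢ <;> simp at h1 h2 <;>
          first
            | (exfalso; omega)
            | (have hii : i' = i := Fin.ext (by omega)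
               subst hii
               exact ⟨rfl, rfl⟩)
    have h1 : (spine θ).arrows (edge ζ a ≫ φ) := (spine θ).downward_closed hφ _
    have h2 := hx ζ _ (edge ζ a) φ hφ h1
    have h3 : (spine θ).arrows (sus (Wr.Hom.g φ a i hi) ≫ edge θ i) :=
      (spine θ).downward_closed (hedge i) _
    have h4 := hx _ _ (sus (Wr.Hom.g φ a i hi)) (edge θ i) (hedge i) h3
    have h5 : x _ (edge ζ a ≫ φ) h1 = x _ (sus (Wr.Hom.g φ a i hi) ≫ edge θ i) h3 := by
      congr 1
      exact edge_comp_eq φ a i hi hends.1 hends.2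
    have h6 : edge ζ a ≫ x ζ φ hφ = sus (Wr.Hom.g φ a i hi) ≫ x _ (edge θ i) (hedge i) :=
      h2.symm.trans (h5.trans h4)
    have h7 := edge_comp_g (x ζ φ hφ) a j h'
    have h8 := sus_comp_g (Wr.Hom.g φ a i hi) (x _ (edge θ i) (hedge i)) j (hjump i j hj)
    refine h8.symm.trans (Eq.trans ?_ h7)
    have aux : ∀ (w w' : (⟨1, fun _ => ζ.obj a⟩ : Wr C) ⟶ η) (_ : w = w')
        (hw : Jump (Wr.Hom.f w) (0 : Fin 1) j) (hw' : Jump (Wr.Hom.f w') (0 : Fin 1) j),
        Wr.Hom.g w (0 : Fin 1) j hw = Wr.Hom.g w' (0 : Fin 1) j hw' := by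
      rintro w _ rfl hw hw'
      rfl
    exact aux _ _ h6.symm _ _
  · intro t' ht'
    have hf : Wr.Hom.f t' = Wr.Hom.f t := by
      ext v
      refine congrArg Fin.val ?_
      have h1 := ht' _ (vert θ v) (hvert v)
      rw [vert_comp] at h1
      exact congrArg (fun w => Wr.Hom.f w (0 : Fin 1)) h1
    refine Wr.hom_ext' hf fun i j h h' => ?_
    have h1 := ht' _ (edge θ i) (hedge i)
    have h2 := edge_comp_g t' i j h
    refine h2.symm.trans ?_
    have aux : ∀ (w w' : (⟨1, fun _ => θ.obj i⟩ : Wr C) ⟶ η) (_ : w = w')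
        (hw : Jump (Wr.Hom.f w) (0 : Fin 1) j) (hw' : Jump (Wr.Hom.f w') (0 : Fin 1) j),
        Wr.Hom.g w (0 : Fin 1) j hw = Wr.Hom.g w' (0 : Fin 1) j hw' := by
      rintro w _ rfl hw hw'
      rfl
    exact aux _ _ h1 _ (hjump i j h')

/-- The suspension of a covering sieve (with at least one arrow) is covering for the
representable presheaves. -/
theorem susp_shF {θ : C} {S : Sieve θ} (hne : ∃ (ζ : C) (u : ζ ⟶ θ), S.arrows u)
    (hS : ∀ η, ShF S η) (η : Wr C) : ShF (suspSieve S) η := by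
  intro x hx
  have hvert : ∀ v, (suspSieve S).arrows (vert (⟨1, fun _ => θ⟩ : Wr C) v) :=
    fun v (i : Fin 0) _ _ => i.elim0
  have hsus : ∀ {ζ : C} (u : ζ ⟶ θ), S.arrows u → (suspSieve S).arrows (sus u) := by
    intro ζ u hu i j h
    obtain rfl : i = (0 : Fin 1) := Subsingleton.elim _ _
    obtain rfl : j = (0 : Fin 1) := Subsingleton.elim _ _
    rw [sus_g]
    exact hu
  let F : Fin 2 → Fin (η.len + 1) := fun v =>
    Wr.Hom.f (x _ (vert (⟨1, fun _ => θ⟩ : Wr C) v) (hvert v)) (0 : Fin 1)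
  have hF : ∀ (ζ : Wr C) (φ : ζ ⟶ (⟨1, fun _ => θ⟩ : Wr C)) (hφ : (suspSieve S).arrows φ)
      (s : Fin (ζ.len + 1)), Wr.Hom.f (x ζ φ hφ) s = F (Wr.Hom.f φ s) := by
    intro ζ φ hφ s
    have h1 : (suspSieve S).arrows (vert ζ s ≫ φ) := (suspSieve S).downward_closed hφ _
    have h2 := hx ζ _ (vert ζ s) φ hφ h1
    have h3 : x _ (vert ζ s ≫ φ) h1 =
        x _ (vert (⟨1, fun _ => θ⟩ : Wr C) (Wr.Hom.f φ s)) (hvert _) := by
      congr 1
      exact vert_comp s φ
    rw [h3, vert_comp s (x ζ φ hφ)] at h2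
    have h4 := congrArg (fun w => Wr.Hom.f w (0 : Fin 1)) h2
    exact h4.symm
  have hmono : Monotone F := by
    rw [Fin.monotone_iff_le_succ]
    intro i
    obtain rfl : i = (0 : Fin 1) := Subsingleton.elim _ _
    obtain ⟨ζ, u, hu⟩ := hne
    have h0 := hF _ (sus u) (hsus u hu) (0 : Fin 2)
    have h1 := hF _ (sus u) (hsus u hu) (1 : Fin 2)
    refine (le_of_eq h0.symm).trans (le_trans ?_ (le_of_eq h1))
    exact (Wr.Hom.f (x _ (sus u) (hsus u hu))).monotone (Fin.zero_le _)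
  have hjump : ∀ {ζ : C} (u : ζ ⟶ θ) (hu : S.arrows u) (j : Fin η.len),
      Jump (⟨F, hmono⟩ : Fin 2 →o _) (0 : Fin 1) j →
      Jump (Wr.Hom.f (x _ (sus u) (hsus u hu))) (0 : Fin 1) j := by
    intro ζ u hu j h
    constructor
    · exact (le_of_eq (hF _ (sus u) (hsus u hu) (0 : Fin 2))).trans h.1
    · exact h.2.trans (le_of_eq (hF _ (sus u) (hsus u hu) (1 : Fin 2)).symm)
  have aux : ∀ {c : C} {j : Fin η.len} (w w' : (⟨1, fun _ => c⟩ : Wr C) ⟶ η) (_ : w = w')
      (hw : Jump (Wr.Hom.f w) (0 : Fin 1) j) (hw' : Jump (Wr.Hom.f w') (0 : Fin 1) j),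
      Wr.Hom.g w (0 : Fin 1) j hw = Wr.Hom.g w' (0 : Fin 1) j hw' := by
    rintro c j w _ rfl hw hw'
    rfl
  -- the components
  have hcomp : ∀ (j : Fin η.len) (hj : Jump (⟨F, hmono⟩ : Fin 2 →o _) (0 : Fin 1) j),
      ∃! t : θ ⟶ η.obj j, ∀ (ζ : C) (u : ζ ⟶ θ) (hu : S.arrows u),
        u ≫ t = Wr.Hom.g (x _ (sus u) (hsus u hu)) (0 : Fin 1) j (hjump u hu j hj) := by
    intro j hj
    refine hS (η.obj j) (fun ζ u hu =>
      Wr.Hom.g (x _ (sus u) (hsus u hu)) (0 : Fin 1) j (hjump u hu j hj)) ?_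
    intro ζ ζ' v u hu hu'
    have h1 : (suspSieve S).arrows (sus v ≫ sus u) :=
      (suspSieve S).downward_closed (hsus u hu) _
    have h2 := hx _ _ (sus v) (sus u) (hsus u hu) h1
    have h3 : x _ (sus (v ≫ u)) (hsus _ hu') = x _ (sus v ≫ sus u) h1 := by
      congr 1
      exact sus_sus v u
    refine (aux _ _ (h3.trans h2) _ (hjump u hu j hj)).trans ?_
    exact sus_comp_g v (x _ (sus u) (hsus u hu)) j (hjump u hu j hj)
  choose tc htc htc' using hcomp
  let t : (⟨1, fun _ => θ⟩ : Wr C) ⟶ η :=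
    ({ f := ⟨F, hmono⟩
       g := fun i j h => tc j (by
        obtain rfl : i = (0 : Fin 1) := Subsingleton.elim _ _
        exact h) } : Wr.Hom (⟨1, fun _ => θ⟩ : Wr C) η)
  refine ⟨t, ?_, ?_⟩
  · intro ζ φ hφ
    have hf : Wr.Hom.f (φ ≫ t) = Wr.Hom.f (x ζ φ hφ) := by
      ext s
      exact congrArg Fin.val (hF ζ φ hφ s).symm
    refine Wr.hom_ext' hf fun a j h h' => ?_
    obtain ⟨i, hi, hj⟩ := Jump.split (f := Wr.Hom.f φ) (g := Wr.Hom.f t) h
    obtain rfl : i = (0 : Fin 1) := Subsingleton.elim _ _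
    refine (Wr.comp_g φ t hi hj).trans ?_
    have hu : S.arrows (Wr.Hom.g φ a (0 : Fin 1) hi) := hφ a 0 hi
    refine (htc j hj _ (Wr.Hom.g φ a (0 : Fin 1) hi) hu).trans ?_
    have hends : Wr.Hom.f φ a.castSucc = (0 : Fin 1).castSucc ∧
        Wr.Hom.f φ a.succ = (0 : Fin 1).succ := by
      have h1 := hi.1
      have h2 := hi.2
      rw [Fin.le_def] at h1 h2
      have h3 : (Wr.Hom.f φ a.succ).1 < 2 := (Wr.Hom.f φ a.succ).2
      have h4 : ((0 : Fin 1).castSucc : Fin 2).1 = 0 := rfl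
      have h5 : ((0 : Fin 1).succ : Fin 2).1 = 1 := rfl
      constructor
      · exact Fin.ext (by
          have : (Wr.Hom.f φ a.castSucc).1 ≤ 0 := h1
          show (Wr.Hom.f φ a.castSucc).1 = 0
          omega)
      · exact Fin.ext (by
          have : 1 ≤ (Wr.Hom.f φ a.succ).1 := h2
          show (Wr.Hom.f φ a.succ).1 = 1
          omega)
    have h1 : (suspSieve S).arrows (edge ζ a ≫ φ) := (suspSieve S).downward_closed hφ _
    have h2 := hx ζ _ (edge ζ a) φ hφ h1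
    have h5 : x _ (edge ζ a ≫ φ) h1 = x _ (sus (Wr.Hom.g φ a (0 : Fin 1) hi)) (hsus _ hu) := by
      congr 1
      refine (edge_comp_eq φ a (0 : Fin 1) hi hends.1 hends.2).trans ?_
      have he : edge (⟨1, fun _ => θ⟩ : Wr C) (0 : Fin 1) = 𝟙 _ := by
        have hf : Wr.Hom.f (edge (⟨1, fun _ => θ⟩ : Wr C) (0 : Fin 1)) =
            Wr.Hom.f (𝟙 (⟨1, fun _ => θ⟩ : Wr C)) := by
          ext s
          refine congrArg Fin.val ?_
          have hs : s = (0 : Fin 2) ∨ s = (1 : Fin 2) := fin2_cases s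
          rcases hs with hs | hs <;> rw [hs] <;> rfl
        refine Wr.hom_ext' hf fun b l hb hb' => ?_
        obtain rfl : b = (0 : Fin 1) := Subsingleton.elim _ _
        obtain rfl : l = (0 : Fin 1) := Subsingleton.elim _ _
        rfl
      rw [he]
      exact Category.comp_id _
    have h7 := edge_comp_g (x ζ φ hφ) a j h'
    refine Eq.trans ?_ h7
    exact aux _ _ (h5.symm.trans h2) _ _
  · intro t' ht'
    have hf : Wr.Hom.f t' = Wr.Hom.f t := by
      ext v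
      refine congrArg Fin.val ?_
      have h1 := ht' _ (vert (⟨1, fun _ => θ⟩ : Wr C) v) (hvert v)
      rw [vert_comp] at h1
      exact congrArg (fun w => Wr.Hom.f w (0 : Fin 1)) h1
    refine Wr.hom_ext' hf fun i j h h' => ?_
    obtain rfl : i = (0 : Fin 1) := Subsingleton.elim _ _
    refine htc' j h' (Wr.Hom.g t' (0 : Fin 1) j h) ?_
    intro ζ u hu
    have h1 := ht' _ (sus u) (hsus u hu)
    refine (sus_comp_g u t' j h).symm.trans ?_
    exact aux _ _ h1 _ _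

end Wreath

/-! ### The Segal covers -/

theorem segCov_shF {n : ℕ} {θ : Th n} {S : Sieve θ} (hS : SegCov n θ S) :
    (∃ (ζ : Th n) (u : ζ ⟶ θ), S.arrows u) ∧ ∀ η, ShF S η := by
  induction hS with
  | spine n θ =>
    refine ⟨⟨_, vert (C := Th n) θ 0, Or.inl ⟨0, fun _ => rfl⟩⟩, fun η => ?_⟩
    exact spine_shF (C := Th n) θ η
  | @susp n θ S h ih =>
    obtain ⟨⟨ζ, u, hu⟩, ih2⟩ := ih
    refine ⟨⟨(⟨1, fun _ => ζ⟩ : Wr (Th n)), sus (C := Th n) u, ?_⟩, fun η => ?_⟩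
    · intro i j h
      obtain rfl : i = (0 : Fin 1) := Subsingleton.elim _ _
      obtain rfl : j = (0 : Fin 1) := Subsingleton.elim _ _
      rw [sus_g]
      exact hu
    · exact susp_shF (C := Th n) ⟨ζ, u, hu⟩ ih2 η

/-- FL-11. -/
theorem segCov_sheaf {n : ℕ} {θ : Th n} {S : Sieve θ} (hS : SegCov n θ S) (η : Th n) :
    Function.Bijective fun g : rep θ ⟶ rep η => sieveIncl S ≫ g :=
  bij_of_shF ((segCov_shF hS).2 η)

end Pool.Agent.Helper82.FL11
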